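import Pool.Agent.H11.LGR.Targets

/-!
# RD0: nil ideals, torsion free modules
-/

set_option autoImplicit false

open MvPolynomial Pool.Agent.H87.CLG Pool.Agent.H11.LGR

namespace Pool.Agent.H50.LGR

/-- the binomial expansion to second order -/
theorem pow_second {B : Type} [Ring B] (φ : B) (k : ℕ) :
    ∃ ψ : B, (1 + φ) ^ k = 1 + (k : B) * φ + ψ * φ ^ 2 := by
  induction k with
  | zero => exact ⟨0, by simp⟩
  | succ k ih =>
    obtain ⟨ψ, h⟩ := ih
    refine ⟨ψ + (k : B) + ψ * φ, ?_⟩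
    rw [pow_succ, h]
    push_cast
    noncomm_ring

/-- a unipotent element of finite order is trivial if there is no torsion -/
theorem unip_trivial {B : Type} [Ring B] (htf : ∀ (k : ℕ) (b : B), 0 < k → (k : B) * b = 0 → b = 0)
    (φ : B) (k : ℕ) (hk : 0 < k) (h1 : (1 + φ) ^ k = 1) (m : ℕ) (hm : φ ^ m = 0) : φ = 0 := by
  have hstep : ∀ j : ℕ, φ ^ (j + 2) = 0 → φ ^ (j + 1) = 0 := by
    intro j hj
    obtain ⟨ψ, h⟩ := pow_second φ k
    rw [h1] at h
    have h2 : (k : B) * φ + ψ * φ ^ 2 = 0 := by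
      have h3 : (1 : B) + ((k : B) * φ + ψ * φ ^ 2) = 1 + 0 := by
        rw [← add_assoc, ← h, add_zero]
      exact add_left_cancel h3
    have h4 : ((k : B) * φ + ψ * φ ^ 2) * φ ^ j = 0 := by rw [h2, zero_mul]
    have h5 : ((k : B) * φ + ψ * φ ^ 2) * φ ^ j = (k : B) * φ ^ (j + 1) + ψ * φ ^ (j + 2) := by
      rw [add_mul, mul_assoc, mul_assoc, ← pow_succ', ← pow_add, add_comm 2 j]
    rw [h5, hj, mul_zero, add_zero] at h4
    exact htf k _ hk h4
  have hall : ∀ j : ℕ, φ ^ (j + 1) = 0 → φ = 0 := by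
    intro j
    induction j with
    | zero =>
      intro h
      simpa using h
    | succ j ih =>
      intro h
      exact ih (hstep j h)
  rcases Nat.eq_zero_or_pos m with h0 | h0
  · subst h0
    rw [pow_zero] at hm
    have : φ = 1 * φ := (one_mul φ).symm
    rw [this, hm, zero_mul]
  · obtain ⟨j, rfl⟩ := Nat.exists_eq_succ_of_ne_zero h0.ne'
    exact hall j hm

/-- Cayley-Hamilton: an endomorphism with range in `J M` is nilpotent if `J` acts by nilpotent
elements -/
theorem nil_of_range {R M : Type} [CommRing R] [AddCommGroup M] [Module R M] [Module.Finite R M]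
    (J : Ideal R) (hJ : ∀ r ∈ J, ∃ k : ℕ, ∀ m : M, r ^ k • m = 0) (φ : Module.End R M)
    (hφ : LinearMap.range φ ≤ J • ⊤) : ∃ m : ℕ, φ ^ m = 0 := by
  obtain ⟨p, hp, _, hc, h0⟩ :=
    LinearMap.exists_monic_and_natDegree_eq_and_coeff_mem_pow_and_aeval_eq_zero R φ J hφ
  set K : Ideal (Polynomial R) := RingHom.ker (Polynomial.aeval φ : Polynomial R →ₐ[R] _) with hK
  have h1 : p ∈ K.radical := Ideal.le_radical (by rw [hK, RingHom.mem_ker]; exact h0)
  have h2 : ∀ i ∈ Finset.range p.natDegree,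
      Polynomial.C (p.coeff i) * Polynomial.X ^ i ∈ K.radical := by
    intro i hi
    have h3 : p.coeff i ∈ J := by
      have h4 : p.natDegree - i ≠ 0 := by
        have := Finset.mem_range.1 hi
        omega
      exact Ideal.pow_le_self h4 (hc i)
    obtain ⟨k, hk⟩ := hJ _ h3
    refine ⟨k, ?_⟩
    rw [hK, RingHom.mem_ker, map_pow, map_mul, Polynomial.aeval_C, map_pow, Polynomial.aeval_X]
    have hcomm : Commute (algebraMap R (Module.End R M) (p.coeff i)) (φ ^ i) :=
      Algebra.commute_algebraMap_left _ _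
    rw [hcomm.mul_pow, ← map_pow]
    ext m
    rw [Module.End.mul_apply, Module.algebraMap_end_apply, hk, LinearMap.zero_apply]
  have h3 : Polynomial.X ^ p.natDegree ∈ K.radical := by
    have h4 := hp.as_sum
    have h5 : (Polynomial.X : Polynomial R) ^ p.natDegree =
        p - ∑ i ∈ Finset.range p.natDegree, Polynomial.C (p.coeff i) * Polynomial.X ^ i := by
      rw [eq_sub_iff_add_eq]
      exact h4.symm
    rw [h5]
    exact Ideal.sub_mem _ h1 (Ideal.sum_mem _ h2)
  obtain ⟨k, hk⟩ := h3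
  rw [hK, RingHom.mem_ker, map_pow, map_pow, Polynomial.aeval_X] at hk
  exact ⟨p.natDegree * k, by rw [pow_mul]; exact hk⟩

theorem pf_RD0 : T_RD0 := by
  intro R M S Γ _ _ _ _ _ n A L J hS hTF hTor hJ hE
  obtain ⟨e, he, hE⟩ := hE
  refine ⟨e, he, ?_⟩
  intro γ m
  have hfin : Module.Finite R M :=
    ⟨⟨(Set.finite_range A.g).toFinset, by rw [Set.Finite.coe_toFinset, A.span]⟩⟩
  have hL : ∀ δ : Γ, L ≤ L.comap (A.ρ δ) := fun δ x hx => hS.r δ x hx
  set Tm : Γ → Module.End R (M ⧸ L) := fun δ => L.mapQ L (A.ρ δ) (hL δ) with hTm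
  have hmk : ∀ δ x, Tm δ (L.mkQ x) = L.mkQ (A.ρ δ x) := fun δ x => by
    simp only [hTm]
    exact Submodule.mapQ_apply L L (A.ρ δ) x
  have hpow : ∀ (δ : Γ) (k : ℕ) (x : M), (Tm δ ^ k) (L.mkQ x) = L.mkQ (A.ρ (δ ^ k) x) := by
    intro δ k
    induction k with
    | zero =>
      intro x
      rw [pow_zero, pow_zero, map_one]
      rfl
    | succ k ih =>
      intro x
      rw [pow_succ, Module.End.mul_apply, hmk, ih, pow_succ, map_mul, Module.End.mul_apply]
  set φ : Module.End R (M ⧸ L) := Tm (γ ^ e) - 1 with hφ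
  have hφmk : ∀ x, φ (L.mkQ x) = L.mkQ (A.ρ (γ ^ e) x - x) := by
    intro x
    rw [hφ, LinearMap.sub_apply, hmk, map_sub]
    rfl
  have hrange : LinearMap.range φ ≤ J • ⊤ := by
    rintro _ ⟨y, rfl⟩
    obtain ⟨x, rfl⟩ := L.mkQ_surjective y
    rw [hφmk]
    obtain ⟨l, hl, z, hz, hlz⟩ := Submodule.mem_sup.1 (hE γ x)
    rw [← hlz, map_add]
    have h1 : L.mkQ l = 0 := by
      rw [Submodule.mkQ_apply, Submodule.Quotient.mk_eq_zero]
      exact hl
    rw [h1, zero_add]
    have h2 : L.mkQ z ∈ Submodule.map L.mkQ (J • ⊤) := Submodule.mem_map_of_mem hz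
    rw [Submodule.map_smul'', Submodule.map_top, Submodule.range_mkQ] at h2
    exact h2
  have hnil : ∃ m : ℕ, φ ^ m = 0 := by
    refine nil_of_range J ?_ φ hrange
    intro r hr
    obtain ⟨k, hk⟩ := hJ r hr
    refine ⟨k, fun y => ?_⟩
    obtain ⟨x, rfl⟩ := L.mkQ_surjective y
    rw [← map_smul, Submodule.mkQ_apply, Submodule.Quotient.mk_eq_zero]
    exact hk x
  obtain ⟨k, hk, hk1⟩ := hTor (γ ^ e)
  have h1φ : (1 + φ) ^ k = 1 := by
    have h2 : 1 + φ = Tm (γ ^ e) := by rw [hφ, add_sub_cancel]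
    rw [h2]
    refine LinearMap.ext fun y => ?_
    obtain ⟨x, rfl⟩ := L.mkQ_surjective y
    rw [hpow, hk1]
    rfl
  have htf : ∀ (k : ℕ) (b : Module.End R (M ⧸ L)), 0 < k →
      (k : Module.End R (M ⧸ L)) * b = 0 → b = 0 := by
    intro k b hk hb
    refine LinearMap.ext fun y => ?_
    have h2 := congrArg (fun f : Module.End R (M ⧸ L) => f y) hb
    obtain ⟨z, hz⟩ := L.mkQ_surjective (b y)
    rw [LinearMap.zero_apply, ← hz]
    have h3 : ((k : ℕ) : R) • L.mkQ z = 0 := by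
      rw [hz]
      have h4 : ((k : Module.End R (M ⧸ L)) * b) y = ((k : ℕ) : R) • b y := by
        rw [Module.End.mul_apply, Module.End.natCast_apply, Nat.cast_smul_eq_nsmul]
      rw [← h4]
      exact h2
    rw [← map_smul, Submodule.mkQ_apply, Submodule.Quotient.mk_eq_zero] at h3
    rw [Submodule.mkQ_apply, Submodule.Quotient.mk_eq_zero]
    exact hTF k z hk h3
  obtain ⟨m', hm'⟩ := hnil
  have hφ0 : φ = 0 := unip_trivial htf φ k hk h1φ m' hm'
  have h5 := hφmk m
  rw [hφ0, LinearMap.zero_apply, Submodule.mkQ_apply, eq_comm, Submodule.Quotient.mk_eq_zero] at h5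
  exact h5

end Pool.Agent.H50.LGR
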